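import Pool.Agent.D0H99.RM.Pp
import Pool.Agent.D0H52.RM.Cl2
import Pool.Agent.D0H52.RM.Mo2

/-!
# Twists of hyperelliptic Jacobians by products of random primes: the prime two

`k` is a finite field of odd characteristic in which `-1` is a square, `K = k(t)`, and `J_f` is the
Jacobian over `K` of the curve `y ^ 2 = f(t) h(x) (x - g(t))` of a pencil (`h` split and separable of
even degree, `g` of odd degree, and `g - c` irreducible for the roots `c` of `h`; for `deg h = 2` these
are elliptic curves). We show that for at least the proportion `1 / 6 - ε` of the `r`-tuples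
`(d_1, ..., d_r)` of primes of `k[t]` of degree `n` (`r ≥ r₀`, `r₀` depends only on `deg h` and `ε`; `n`
even and large) the `2`-primary part of the Tate-Shafarevich group of `J_f` is zero,
`f = c d_1 ^ (t_1) ⋯ d_r ^ (t_r)`, for all constants `c ≠ 0` and all odd `t_i`. So these
Tate-Shafarevich groups are finite, by the theorem of Tate, Milne, Kato and Trihan, which is not used
in the proof.

The Selmer group of `J_f`, modulo the rational torsion points, is embedded in the kernel of a symmetric
matrix `M` of the size `r deg h` over `F_2` with known diagonal, built from quadratic residue symbols,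
which are asymptotically independent and uniformly distributed. The average number of elements of
the kernel tends to `3`: there are three maximal isotropic subsets in the set of the possible pairs
of vectors. The parity of the rank of `M` is the parity of its trace, and the sums over the kernels
of even and of odd dimension are asymptotically equal, so that the averages over the cases of even
dimension and over the cases of odd dimension are also `3`; as the numbers `1, 4, 16, ...` have average
`3` in the first case, at least one third of the kernels of even dimension are zero.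

The definitions of the Jacobian `J`, of its Galois cohomology and of the groups of locally trivial
classes are in `Pool.Agent.Y713.SE.Stm`.
-/

set_option autoImplicit false
set_option linter.all false

open Polynomial IsDedekindDomain

namespace Pool.Agent.Results.MP_72e2e6_nt.HyperellipticRandomPrimes

/-- The conditions on the pencil `y ^ 2 = h(x) (x - g(t))`. -/
structure IsPencil {k : Type} [Field k] (h g : k[X]) : Prop where
  splits : h.Splits
  separable : h.Separable
  odd_g : Odd g.natDegree
  irreducible : ∀ c : k, h.IsRoot c → Irreducible (g - C c)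

/-- The product of the constant `c` and of the powers `d_j ^ (t j)`. -/
noncomputable def product {k : Type} [Field k] {r : ℕ} (d : Fin r → k[X]) (c : k)
    (t : Fin r → ℕ) : k[X] :=
  C c * ∏ j, d j ^ t j

/-- The polynomial `f(t) h(x) (x - g(t))` in `x` over `k(t)`. -/
noncomputable def curve {k : Type} [Field k] (f h g : k[X]) : (RatFunc k)[X] :=
  C (algebraMap k[X] (RatFunc k) f) * (h.map ((algebraMap k[X] (RatFunc k)).comp C) *
    (X - C (algebraMap k[X] (RatFunc k) g)))

/-- Every class of `2`-power order in `H ^ 1 (K, J)`, `J` the Jacobian of `y ^ 2 = F(x)`, which is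
zero over the completions of `K = Frac R` at all maximal ideals of `R` is zero (the group `J` is
written multiplicatively). -/
def ShaZero {K : Type} [Field K] (F : K[X]) (R : Type) [CommRing R]
    [IsDedekindDomain R] [Algebra R K] [IsFractionRing R K] : Prop :=
  ∀ (f : Y713.Jac.Cochain 2 F) (n : ℕ), Y713.Jac.IsCocycle 2 F f →
    Y713.Jac.IsLocallyTrivial 2 F R f →
    Y713.Jac.IsCoboundary 2 F (fun σ => f σ ^ 2 ^ n) → Y713.Jac.IsCoboundary 2 F f

/-- The `r`-tuples of monic irreducible polynomials of degree `n`. -/
def Tuples (k : Type) [Field k] (r n : ℕ) : Set (Fin r → k[X]) :=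
  {d | ∀ i, (d i).Monic ∧ Irreducible (d i) ∧ (d i).natDegree = n}

/-- The tuple `d` is good for the pencil and for the exponents `t`: for all constants `c ≠ 0`, for
the Jacobian of `y ^ 2 = c d_1 ^ (t_1) ⋯ d_r ^ (t_r) h(x) (x - g(t))` over `k(t)`, the classes of
`2`-power order which are zero over the completions at all the primes of `k[t]` are zero. -/
def IsGood {k : Type} [Field k] (h g : k[X]) {r : ℕ} (t : Fin r → ℕ)
    (d : Fin r → k[X]) : Prop :=
  ∀ c : k, c ≠ 0 → ShaZero (curve (product d c t) h g) k[X]

/-- Let `m ≥ 2` be even and `ε > 0`. There is an `r₀` such that for all `r ≥ r₀`, for all finite fields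
`k` of odd characteristic in which `-1` is a square and all `N` there is an `n₀` such that for all even
`n ≥ n₀`, for all pencils `(h, g)` over `k` with `deg h = m` and `deg g = N` and all odd exponents
`t_1, ..., t_r` at least the proportion `1 / 6 - ε` of the `r`-tuples of monic irreducible polynomials
of degree `n` are good. -/
theorem result (m : ℕ) (hm : Even m) (hm2 : 2 ≤ m) (ε : ℝ) (hε : 0 < ε) :
    ∃ r₀ : ℕ, ∀ r : ℕ, r₀ ≤ r → ∀ (k : Type) [Field k] [Finite k], (2 : k) ≠ 0 →
      IsSquare (-1 : k) → ∀ N : ℕ, ∃ n₀ : ℕ, ∀ n : ℕ, n₀ ≤ n → Even n →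
      ∀ h g : k[X], IsPencil h g → h.natDegree = m → g.natDegree = N →
      ∀ t : Fin r → ℕ, (∀ i, Odd (t i)) →
        (1 / 6 - ε) * ((Tuples k r n).ncard : ℝ) ≤
          (({d ∈ Tuples k r n | IsGood h g t d}).ncard : ℝ) := by
  obtain ⟨r0, h0⟩ := Pool.Agent.D0H99.RM.main_two
    (Pool.Agent.D0H52.RM.mo2 Pool.Agent.D0H52.RM.cl2 Pool.Agent.D0H52.RM.par) hm hm2 hε
  refine ⟨r0, fun r hr k _ _ h2 h1 N => ?_⟩
  have hk : 2 ∣ Nat.card k - 1 := by
    classical
    letI : Fintype k := Fintype.ofFinite k
    have hq : Fintype.card k % 2 = 1 := by
      apply FiniteField.odd_card_of_char_ne_two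
      intro hc
      apply h2
      have := ringChar.Nat.cast_ringChar (R := k)
      rw [hc] at this
      exact_mod_cast this
    rw [Nat.card_eq_fintype_card]
    exact ⟨Fintype.card k / 2, by omega⟩
  obtain ⟨z, hz⟩ := h1
  obtain ⟨n0, h1⟩ := Filter.eventually_atTop.1 (h0 r hr k h2 hk ⟨z, by rw [hz, pow_two]⟩ N)
  refine ⟨n0, fun n hn hln h g H hh hg t ht => ?_⟩
  refine h1 n hn hln.two_dvd h g
    ⟨H.splits, H.separable, by rw [hh]; exact hm2, ?_, ?_, H.irreducible⟩ hh hg t ?_
  · rw [hh]
    obtain ⟨j, hj⟩ := hm
    omega
  · obtain ⟨j, hj⟩ := H.odd_g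
    omega
  · intro i
    obtain ⟨j, hj⟩ := ht i
    omega

end Pool.Agent.Results.MP_72e2e6_nt.HyperellipticRandomPrimes
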