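import Pool.Agent.D0H99.FT.Pp

/-!
# A positive proportion of the elementary abelian extensions of `k(t)`

`k` is a finite field of odd characteristic, `ℓ` a prime divisor of `#k - 1` such that `-1` is an
`ℓ`-th power in `k` (no condition if `ℓ` is odd; `#k = 1` modulo `4` if `ℓ = 2`), `K = k(t)` and `J` the
Jacobian over `K` of a curve `y ^ ℓ = h(x) (x - g(t))` of a pencil (`h` split and separable, `ℓ` prime
to `deg h + 1` and to `deg g`, and `g - c` irreducible for the roots `c` of `h`; for `ℓ = 2` and
`deg h = 2` these are elliptic curves). The curve is fixed and the field extension varies: for a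
positive proportion of the `r`-tuples of primes `d_1, ..., d_r` of `k[t]` of a large degree divisible
by `ℓ`, the `ℓ`-adic Tate module of the Tate-Shafarevich group is zero for `J` and its twists by all
products of powers of the `d_i` and constants over `K(d_1 ^ (1/ℓ), ..., d_r ^ (1/ℓ))` and its
extension by the `ℓ`-th roots of the constants, and over all the subfields generated by `ℓ`-th roots.
So these Tate-Shafarevich groups are finite by the theorem of Tate, Milne, Kato and Trihan (which is not
used in the proof).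

The definitions of the Jacobian `J`, of its Galois cohomology and of the groups of locally trivial
classes are in `Pool.Agent.Y713.SE.Stm`.
-/

set_option autoImplicit false
set_option linter.all false

open Polynomial IsDedekindDomain

namespace Pool.Agent.Results.MP_72e2e6_nt.PositiveProportion

/-- The conditions on the pencil `y ^ ℓ = h(x) (x - g(t))`. -/
structure IsPencil {k : Type} [Field k] (ℓ : ℕ) (h g : k[X]) : Prop where
  splits : h.Splits
  separable : h.Separable
  two_le : 2 ≤ h.natDegree
  degree_h : ¬ ℓ ∣ h.natDegree + 1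
  degree_g : ¬ ℓ ∣ g.natDegree
  irreducible : ∀ c : k, h.IsRoot c → Irreducible (g - C c)

/-- The product of the constant `c` and of the powers `d_j ^ (a j)`. -/
noncomputable def product {k : Type} [Field k] {r : ℕ} (d : Fin r → k[X]) (c : k)
    (a : Fin r → ℕ) : k[X] :=
  C c * ∏ j, d j ^ a j

/-- The polynomial `f(t) h(x) (x - g(t))` in `x` over the extension `L` of `k(t)`. -/
noncomputable def curve {k : Type} [Field k] (f h g : k[X]) (L : Type) [Field L]
    [Algebra (RatFunc k) L] : L[X] :=
  (C (algebraMap k[X] (RatFunc k) f) * (h.map ((algebraMap k[X] (RatFunc k)).comp C) *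
    (X - C (algebraMap k[X] (RatFunc k) g)))).map (algebraMap (RatFunc k) L)

/-- Every class of `ℓ`-power order in `H ^ 1 (L, J)`, `J` the Jacobian of `y ^ ℓ = F(x)`, which is
zero over the completions of `L = Frac R` at all maximal ideals of `R` is killed by `ℓ ^ m`
(the group `J` is written multiplicatively). -/
def ShaKilled (ℓ m : ℕ) {L : Type} [Field L] (F : L[X]) (R : Type) [CommRing R]
    [IsDedekindDomain R] [Algebra R L] [IsFractionRing R L] : Prop :=
  ∀ (f : Y713.Jac.Cochain ℓ F) (n : ℕ), Y713.Jac.IsCocycle ℓ F f →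
    Y713.Jac.IsLocallyTrivial ℓ F R f →
    Y713.Jac.IsCoboundary ℓ F (fun σ => f σ ^ ℓ ^ n) →
    Y713.Jac.IsCoboundary ℓ F (fun σ => f σ ^ ℓ ^ m)

/-- The `r`-tuples of monic irreducible polynomials of degree `n`. -/
def Tuples (k : Type) [Field k] (r n : ℕ) : Set (Fin r → k[X]) :=
  {d | ∀ i, (d i).Monic ∧ Irreducible (d i) ∧ (d i).natDegree = n}

/-- The tuple `d` is good: over all fields `L` generated over `k(t)` by the `ℓ`-th roots of `s`
products of nonzero constants and powers of the `d_j`, for the Jacobian of `y ^ ℓ = f(t) h(x) (x - g(t))`,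
where `f` is any product of a nonzero constant and powers of the `d_j`, every class of `ℓ`-power order
in `H ^ 1 (L, J)` which is zero over the completions at all maximal ideals of the integral closure `R`
of `k[t]` in `L` is killed by `ℓ ^ s`, and the `ℓ`-adic Tate module of these classes is zero. -/
def IsGood (ℓ : ℕ) {k : Type} [Field k] (h g : k[X]) {r : ℕ} (d : Fin r → k[X]) : Prop :=
  ∀ (L : Type) [Field L] [Algebra (RatFunc k) L] [Algebra k[X] L]
    [IsScalarTower k[X] (RatFunc k) L] (s : ℕ) (c : k) (a : Fin r → ℕ) (c' : Fin s → k)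
    (e : Fin s → Fin r → ℕ) (u : Fin s → L) (_ : c ≠ 0) (_ : ∀ i, c' i ≠ 0)
    (_ : ∀ i, u i ^ ℓ = algebraMap (RatFunc k) L
      (algebraMap k[X] (RatFunc k) (product d (c' i) (e i))))
    (_ : IntermediateField.adjoin (RatFunc k) (Set.range u) = ⊤)
    (R : Type) [CommRing R] [IsDedekindDomain R] [Algebra R L] [IsFractionRing R L]
    [Algebra k[X] R] [IsScalarTower k[X] R L] [IsIntegralClosure R k[X] L],
    ShaKilled ℓ s (curve (product d c a) h g L) R ∧
      Y713.Jac.ShaTateTrivial ℓ (curve (product d c a) h g L) R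

/-- Let `k` be a finite field of odd characteristic, `ℓ` a prime dividing `#k - 1` such that `-1` is
an `ℓ`-th power in `k`, and `(h, g)` a pencil. For every `r` and `ε > 0`, and for all sufficiently
large `n` divisible by `ℓ`, at least the proportion
`(1 - 1 / ℓ) ^ (r deg h) / ℓ ^ (r (r - 1) / 2) - ε` of the `r`-tuples of monic irreducible polynomials
of degree `n` are good. -/
theorem result (ℓ : ℕ) (hℓ : ℓ.Prime) (k : Type) [Field k] [Finite k] (h2 : (2 : k) ≠ 0)
    (hk : ℓ ∣ Nat.card k - 1) (h1 : ∃ z : k, z ^ ℓ = -1) (h g : k[X]) (H : IsPencil ℓ h g)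
    (r : ℕ) (ε : ℝ) (hε : 0 < ε) :
    ∀ᶠ n : ℕ in Filter.atTop, ℓ ∣ n →
      (((1 : ℝ) - 1 / ℓ) ^ (r * h.natDegree) / (ℓ : ℝ) ^ (r * (r - 1) / 2) - ε) *
        ((Tuples k r n).ncard : ℝ) ≤ (({d ∈ Tuples k r n | IsGood ℓ h g d}).ncard : ℝ) := by
  have HP : Pool.Agent.D0H99.FT.Pen ℓ h g :=
    ⟨H.splits, H.separable, H.two_le, H.degree_h, H.degree_g, H.irreducible⟩
  obtain ⟨hk0, ζ, hζ⟩ := Pool.Agent.D0H99.FT.zeta_data hℓ hk
  refine Pool.Agent.D0H99.FT.positive hℓ h1 h2 hk HP r (IsGood ℓ h g) ?_ hε
  intro d hd hall L _ _ _ _ s c a c' e u hc hc' hu hgen R _ _ _ _ _ _ _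
  classical
  have h4 := Pool.Agent.D0H99.FT.layers hℓ hζ hk0 HP Finset.univ (D := d)
    (fun j => (hd j).2.ne_zero) hall L s c a c' e u hc hc' hu hgen R
  exact ⟨h4, Pool.Agent.D0H99.EA.Killed.tate h4⟩

end Pool.Agent.Results.MP_72e2e6_nt.PositiveProportion
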