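import Pool.Agent.D0H99.RM.Pp
import Pool.Agent.D0H52.RM.Cl
import Pool.Agent.D0H52.RM.Mo

/-!
# Most twists by products of random primes have finite Tate-Shafarevich group

`k` is a finite field, `ℓ` an odd prime divisor of `#k - 1`, `K = k(t)`, and `J_f` is the Jacobian over
`K` of the curve `y ^ ℓ = f(t) h(x) (x - g(t))` of a pencil (`h` split and separable, `ℓ` prime to
`deg h + 1` and to `deg g`, and `g - c` irreducible for the roots `c` of `h`). We show that for at
least the proportion `1 - 1 / (ℓ - 1) - ε` of the `r`-tuples `(d_1, ..., d_r)` of primes of `k[t]` of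
degree `n` (`r ≥ r₀`, `r₀` depends only on `ℓ`, `deg h` and `ε`; `ℓ ∣ n`, `n` large) the `ℓ`-primary part
of the Tate-Shafarevich group of `J_f` is zero, `f = c d_1 ^ (t_1) ⋯ d_r ^ (t_r)`, for all constants
`c ≠ 0`, where the exponents `t_i` are prime to `ℓ`. So a half of these twists for `ℓ = 3`, three
quarters for `ℓ = 5`, and almost all for large `ℓ` have a finite Tate-Shafarevich group (by the theorem
of Tate, Milne, Kato and Trihan, which is not used in the proof), although the number of primes
dividing the discriminant is not bounded.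

The Selmer group of the isogeny `1 - ζ` of `J_f`, modulo the rational torsion points, is embedded in the
kernel of a symmetric matrix of the size `r deg h` over `F_ℓ`, which is built from the residue
symbols between the `d_i` and from the symbols of the polynomials `g - c` modulo the `d_i`. These
symbols are asymptotically independent and uniformly distributed, and the average number of
elements of the kernel tends to `2` with `r → ∞`: the vectors in the kernels are counted by the
maximal isotropic subsets of a union of coordinate subspaces.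

The definitions of the Jacobian `J`, of its Galois cohomology and of the groups of locally trivial
classes are in `Pool.Agent.Y713.SE.Stm`.
-/

set_option autoImplicit false
set_option linter.all false

open Polynomial IsDedekindDomain

namespace Pool.Agent.Results.MP_72e2e6_nt.ProductsOfRandomPrimes

/-- The conditions on the pencil `y ^ ℓ = h(x) (x - g(t))`. -/
structure IsPencil {k : Type} [Field k] (ℓ : ℕ) (h g : k[X]) : Prop where
  splits : h.Splits
  separable : h.Separable
  two_le : 2 ≤ h.natDegree
  degree_h : ¬ ℓ ∣ h.natDegree + 1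
  degree_g : ¬ ℓ ∣ g.natDegree
  irreducible : ∀ c : k, h.IsRoot c → Irreducible (g - C c)

/-- The product of the constant `c` and of the powers `d_j ^ (t j)`. -/
noncomputable def product {k : Type} [Field k] {r : ℕ} (d : Fin r → k[X]) (c : k)
    (t : Fin r → ℕ) : k[X] :=
  C c * ∏ j, d j ^ t j

/-- The polynomial `f(t) h(x) (x - g(t))` in `x` over `k(t)`. -/
noncomputable def curve {k : Type} [Field k] (f h g : k[X]) : (RatFunc k)[X] :=
  C (algebraMap k[X] (RatFunc k) f) * (h.map ((algebraMap k[X] (RatFunc k)).comp C) *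
    (X - C (algebraMap k[X] (RatFunc k) g)))

/-- Every class of `ℓ`-power order in `H ^ 1 (K, J)`, `J` the Jacobian of `y ^ ℓ = F(x)`, which is
zero over the completions of `K = Frac R` at all maximal ideals of `R` is zero (the group `J` is
written multiplicatively). -/
def ShaZero (ℓ : ℕ) {K : Type} [Field K] (F : K[X]) (R : Type) [CommRing R]
    [IsDedekindDomain R] [Algebra R K] [IsFractionRing R K] : Prop :=
  ∀ (f : Y713.Jac.Cochain ℓ F) (n : ℕ), Y713.Jac.IsCocycle ℓ F f →
    Y713.Jac.IsLocallyTrivial ℓ F R f →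
    Y713.Jac.IsCoboundary ℓ F (fun σ => f σ ^ ℓ ^ n) → Y713.Jac.IsCoboundary ℓ F f

/-- The `r`-tuples of monic irreducible polynomials of degree `n`. -/
def Tuples (k : Type) [Field k] (r n : ℕ) : Set (Fin r → k[X]) :=
  {d | ∀ i, (d i).Monic ∧ Irreducible (d i) ∧ (d i).natDegree = n}

/-- The tuple `d` is good for the pencil and for the exponents `t`: for all constants `c ≠ 0`, for
the Jacobian of `y ^ ℓ = c d_1 ^ (t_1) ⋯ d_r ^ (t_r) h(x) (x - g(t))` over `k(t)`, the classes of
`ℓ`-power order which are zero over the completions at all the primes of `k[t]` are zero. -/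
def IsGood (ℓ : ℕ) {k : Type} [Field k] (h g : k[X]) {r : ℕ} (t : Fin r → ℕ)
    (d : Fin r → k[X]) : Prop :=
  ∀ c : k, c ≠ 0 → ShaZero ℓ (curve (product d c t) h g) k[X]

/-- Let `ℓ` be an odd prime, `m` a number with `ℓ ∤ m + 1` and `ε > 0`. There is an `r₀` such that for
all `r ≥ r₀`, for all finite fields `k` of odd characteristic with `ℓ ∣ #k - 1` and all `N` there is
an `n₀` such that for all `n ≥ n₀` divisible by `ℓ`, for all pencils `(h, g)` over `k` with `deg h = m`
and `deg g = N` and all exponents `t_1, ..., t_r` prime to `ℓ` at least the proportion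
`1 - 1 / (ℓ - 1) - ε` of the `r`-tuples of monic irreducible polynomials of degree `n` are good. -/
theorem result (ℓ : ℕ) (hℓ : ℓ.Prime) (hℓ2 : ℓ ≠ 2) (m : ℕ) (hm : ¬ ℓ ∣ m + 1) (ε : ℝ)
    (hε : 0 < ε) :
    ∃ r₀ : ℕ, ∀ r : ℕ, r₀ ≤ r → ∀ (k : Type) [Field k] [Finite k], (2 : k) ≠ 0 →
      ℓ ∣ Nat.card k - 1 → ∀ N : ℕ, ∃ n₀ : ℕ, ∀ n : ℕ, n₀ ≤ n → ℓ ∣ n →
      ∀ h g : k[X], IsPencil ℓ h g → h.natDegree = m → g.natDegree = N →
      ∀ t : Fin r → ℕ, (∀ i, ¬ ℓ ∣ t i) →
        (1 - 1 / ((ℓ : ℝ) - 1) - ε) * ((Tuples k r n).ncard : ℝ) ≤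
          (({d ∈ Tuples k r n | IsGood ℓ h g t d}).ncard : ℝ) := by
  obtain ⟨r0, h0⟩ := Pool.Agent.D0H99.RM.main
    (Pool.Agent.D0H52.RM.mo Pool.Agent.D0H52.RM.cl) hℓ hℓ2 hm hε
  refine ⟨r0, fun r hr k _ _ h2 hk N => ?_⟩
  obtain ⟨n0, h1⟩ := Filter.eventually_atTop.1 (h0 r hr k h2 hk N)
  refine ⟨n0, fun n hn hln h g H hh hg t ht => ?_⟩
  exact h1 n hn hln h g
    ⟨H.splits, H.separable, H.two_le, H.degree_h, H.degree_g, H.irreducible⟩ hh hg t ht

end Pool.Agent.Results.MP_72e2e6_nt.ProductsOfRandomPrimes
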