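import Pool.Agent.D0H99.FT.Fin

/-!
# A universal infinite tower of curves over a finite field

`k` is a finite field of odd characteristic, `ℓ` a prime divisor of `#k - 1` such that `-1` is an
`ℓ`-th power in `k` (no condition if `ℓ` is odd; `#k = 1` modulo `4` if `ℓ = 2`). There is one infinite
sequence of primes `D_0, D_1, ...` of `k[t]` such that for every pencil `y ^ ℓ = h(x) (x - g(t))` with
`h` split and separable, `ℓ` prime to `deg h + 1` and to `deg g`, and `g - c` irreducible for the
roots `c` of `h`, the following holds after removing finitely many of the `D_j`: for all the twists of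
the Jacobian by products of constants and of powers of the `D_j`, over all the finite layers of the
infinite tower generated over `k(t)` by the `ℓ`-th roots of the constants and of the `D_j`, the
`ℓ`-adic Tate module of the Tate-Shafarevich group is zero. So these Tate-Shafarevich groups are
finite by the theorem of Tate, Milne, Kato and Trihan (which is not used in the proof).

The definitions of the Jacobian `J`, of its Galois cohomology and of the groups of locally trivial
classes are in `Pool.Agent.Y713.SE.Stm`.
-/

set_option autoImplicit false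
set_option linter.all false

open Polynomial IsDedekindDomain

namespace Pool.Agent.Results.MP_72e2e6_nt.UniversalTower

/-- The conditions on the pencil `y ^ ℓ = h(x) (x - g(t))`. -/
structure IsPencil {k : Type} [Field k] (ℓ : ℕ) (h g : k[X]) : Prop where
  splits : h.Splits
  separable : h.Separable
  two_le : 2 ≤ h.natDegree
  degree_h : ¬ ℓ ∣ h.natDegree + 1
  degree_g : ¬ ℓ ∣ g.natDegree
  irreducible : ∀ c : k, h.IsRoot c → Irreducible (g - C c)

/-- The product of the constant `c` and of the powers `D_j ^ (a j)` with `j < m`. -/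
noncomputable def product {k : Type} [Field k] (D : ℕ → k[X]) (m : ℕ) (c : k) (a : ℕ → ℕ) : k[X] :=
  C c * ∏ j ∈ Finset.range m, D j ^ a j

/-- The polynomial `d(t) h(x) (x - g(t))` in `x` over the extension `L` of `k(t)`. -/
noncomputable def curve {k : Type} [Field k] (d h g : k[X]) (L : Type) [Field L]
    [Algebra (RatFunc k) L] : L[X] :=
  (C (algebraMap k[X] (RatFunc k) d) * (h.map ((algebraMap k[X] (RatFunc k)).comp C) *
    (X - C (algebraMap k[X] (RatFunc k) g)))).map (algebraMap (RatFunc k) L)

/-- Every class of `ℓ`-power order in `H ^ 1 (L, J)`, `J` the Jacobian of `y ^ ℓ = F(x)`, which is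
zero over the completions of `L = Frac R` at all maximal ideals of `R` is killed by `ℓ ^ m`
(the group `J` is written multiplicatively). -/
def ShaKilled (ℓ m : ℕ) {L : Type} [Field L] (F : L[X]) (R : Type) [CommRing R]
    [IsDedekindDomain R] [Algebra R L] [IsFractionRing R L] : Prop :=
  ∀ (f : Y713.Jac.Cochain ℓ F) (n : ℕ), Y713.Jac.IsCocycle ℓ F f →
    Y713.Jac.IsLocallyTrivial ℓ F R f →
    Y713.Jac.IsCoboundary ℓ F (fun σ => f σ ^ ℓ ^ n) →
    Y713.Jac.IsCoboundary ℓ F (fun σ => f σ ^ ℓ ^ m)

/-- Let `k` be a finite field of odd characteristic and `ℓ` a prime dividing `#k - 1` such that `-1`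
is an `ℓ`-th power in `k`. There is a sequence of different monic irreducible polynomials
`D_0, D_1, ...` over `k` such that for every pair `h, g` with `IsPencil ℓ h g` there is `j0` such that
the following holds for all products `d` and `d_1, ..., d_r` of non-zero constants and of powers of the
`D_j` with `j ≥ j0`. Let `L` be the field generated over `k(t)` by `ℓ`-th roots of `d_1, ..., d_r` and
`R` the integral closure of `k[t]` in `L`. Then for the Jacobian `J` of the curve
`y ^ ℓ = d(t) h(x) (x - g(t))` over `L` every class of `ℓ`-power order in `H ^ 1 (L, J)` which is zero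
over the completions of `L` at all places which are not over the point at infinity of the line is
killed by `ℓ ^ r`, and the `ℓ`-adic Tate module of the group of these classes, hence that of the
Tate-Shafarevich group of `J` over `L`, is zero. -/
theorem result (ℓ : ℕ) (hℓ : ℓ.Prime) (k : Type) [Field k] [Finite k] (h2 : (2 : k) ≠ 0)
    (hk : ℓ ∣ Nat.card k - 1) (h1 : ∃ z : k, z ^ ℓ = -1) :
    ∃ D : ℕ → k[X], Function.Injective D ∧ (∀ j, (D j).Monic ∧ Irreducible (D j)) ∧
      ∀ h g : k[X], IsPencil ℓ h g → ∃ j0 : ℕ,
      ∀ (L : Type) [Field L] [Algebra (RatFunc k) L] [Algebra k[X] L]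
        [IsScalarTower k[X] (RatFunc k) L] (m r : ℕ) (c : k) (a : ℕ → ℕ) (c' : Fin r → k)
        (e : Fin r → ℕ → ℕ) (u : Fin r → L) (hc : c ≠ 0) (hc' : ∀ i, c' i ≠ 0)
        (hu : ∀ i, u i ^ ℓ = algebraMap (RatFunc k) L
          (algebraMap k[X] (RatFunc k) (product (fun j => D (j0 + j)) m (c' i) (e i))))
        (hgen : IntermediateField.adjoin (RatFunc k) (Set.range u) = ⊤)
        (R : Type) [CommRing R] [IsDedekindDomain R] [Algebra R L] [IsFractionRing R L]
        [Algebra k[X] R] [IsScalarTower k[X] R L] [IsIntegralClosure R k[X] L],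
        ShaKilled ℓ r (curve (product (fun j => D (j0 + j)) m c a) h g L) R ∧
          Y713.Jac.ShaTateTrivial ℓ (curve (product (fun j => D (j0 + j)) m c a) h g L) R := by
  obtain ⟨D, hinj, hD, hall⟩ := Pool.Agent.D0H99.FT.towers hℓ h1 h2 hk
  refine ⟨D, hinj, hD, ?_⟩
  intro h g H
  obtain ⟨j0, h3⟩ := hall h g H.splits H.separable H.two_le H.degree_h H.degree_g H.irreducible
  refine ⟨j0, ?_⟩
  intro L _ _ _ _ m r c a c' e u hc hc' hu hgen R _ _ _ _ _ _ _
  have h4 := h3 L m r c a c' e u hc hc' hu hgen R
  exact ⟨h4, Pool.Agent.D0H99.EA.Killed.tate h4⟩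

end Pool.Agent.Results.MP_72e2e6_nt.UniversalTower
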